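import Pool.Agent.X308.S.Good

/-!
# Self-dual Chow-Kunneth decompositions of varieties dominated by surfaces

`𝒱` is a class of smooth projective geometrically irreducible varieties over the field `k` closed
under products (for example all of them), `C` the Chow groups with rational coefficients (in the
form of their formal properties, `IsChowProj`), `H` a Weil cohomology theory (`IsWeilProj`), and
`SurfaceProperties H` records two known facts: homologically trivial divisors on a product `X × Y`
are sums of pull-backs of divisors from `X` and from `Y` (with rational coefficients), and every
surface has a Chow-Kunneth decomposition as constructed by Murre.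

Let `X` be a variety, of any dimension, whose motive is a direct summand of a finite sum of twists of
motives of surfaces (and curves), that is, the diagonal of `X` is a sum of compositions
`X → S_s → X` of correspondences through surfaces `S_s` (`throughSurfaces`).

Theorem. `X` has a self-dual Chow-Kunneth decomposition; moreover its filtration satisfies
`F^0 CH^i(X) = CH^i(X)`, `F^(i+1) CH^i(X) = 0` and `F^1 CH^i(X) = ker (cl)`.

No finite-dimensionality or nilpotence hypothesis is made; the direct summand need not be compatible
with the decompositions of the surfaces. Steps of the proof. Let `I_w` be the ideal of the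
self-correspondences of degree zero of `X` which factor through the parts of weight `w` of twisted
motives of surfaces. (1) `I_w' ∘ I_w = 0` for `w < w'`: this amounts to the vanishing of the
correspondences of arbitrary degree from `h^i(S)` to `h^j(S')` which raise the weight, which is
reduced to homologically trivial divisors on products by factoring `h^1` and `h^3` through curves.
(2) By a triangularity argument the diagonal, which is a sum of elements `E_w` of the `I_w`, is the
sum of orthogonal idempotents `q_w ∈ I_w`, and these can be chosen to be exchanged by the
transposition: one removes successively the outermost pairs, replacing `E`, `E'` by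
`E - (E' ∘ E) / 2`, `E' - (E' ∘ E) / 2`. (3) `I_w = 0` unless `0 ≤ w ≤ 2 dim X`.
-/

set_option autoImplicit false

open CategoryTheory AlgebraicGeometry

universe u v w

namespace Pool.Agent.Results.MP_8a7054_ag.DominatedBySurfaces

open Pool.Agent.H914 Pool.Agent.W492.BB Pool.Agent.W550.Corr Pool.Agent.TH133
  Pool.Agent.X308.S

/-- A variety whose motive is a direct summand of a sum of twists of motives of surfaces has a
self-dual Chow-Kunneth decomposition, and its filtration satisfies Murre's conditions (B) and
(D). -/
theorem result {k : Type u} [Field k] {𝒱 : VarClass k} (C : TheoryData.{u, v, 0} 𝒱 ℚ)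
    [IsChowProj C] {K : Type w} [Field K] (H : WeilTheoryData.{u, v, w} C K) [IsWeilProj H]
    (hS : SurfaceProperties H) (X : 𝒱.Obj) (hX : dg C X ∈ throughSurfaces C X) :
    ∃ π : ℕ → C.A (X.prod X), IsCK H X π ∧ IsSelfDual C π ∧
      (∀ i : ℕ, ckFil C π i 0 = C.gr X i) ∧ (∀ i : ℕ, ckFil C π i (i + 1) = ⊥) ∧
      ∀ (i : ℕ) (x : C.A X), x ∈ ckFil C π i 1 ↔ C.Deg i x ∧ H.cl x = 0 :=
  exists_good hS hX

end Pool.Agent.Results.MP_8a7054_ag.DominatedBySurfaces
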