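import Pool.Agent.X308.S.Eq

/-!
# Equivariant self-dual Chow-Kunneth decompositions

`𝒱` is a class of smooth projective geometrically irreducible varieties over the field `k` closed
under products (for example all of them), `C` the Chow groups with rational coefficients (in the
form of their formal properties, `IsChowProj`), `H` a Weil cohomology theory (`IsWeilProj`).

Let `X` be a variety with a Chow-Kunneth decomposition `π`, not necessarily self-dual, such that
there are no morphisms `(X, π b) → (X, π a)` raising the weight, `b < a` (`NoRaising`; this would
follow from Murre's conjecture (B) for `X × X`). Let `G` be a finite group acting on `X`, or more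
generally represented by correspondences `ρ g` such that the transpose of `ρ g` is `ρ g⁻¹`.

Theorem. `X` has a self-dual Chow-Kunneth decomposition `q` whose projectors commute with the
correspondences `ρ g` (so that it induces decompositions of the isotypic components of the motive,
in particular of the motive of the quotient), and there are again no morphisms raising the weight.
The hypothesis on `X` is satisfied if the motive of `X` is a direct summand of a sum of twists of
motives of surfaces: all such `X`, of any dimension, with a finite group `G`, have an equivariant
self-dual Chow-Kunneth decomposition.

No finite-dimensionality or nilpotence hypothesis is made. Proof. Let `f_n` be the sum of the `π i`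
with `i < n` and `g_n` the corresponding sum for the transposed decomposition, `d = dim X`. The
right ideals generated by `f_n` and `g_n` are two-sided. Let `K_n` be their intersection for `n ≤ d`
and their sum for `n > d`; it is generated by the idempotent `z_n = g_n ∘ f_n` (in one order), and
by `f_n + g_n - g_n ∘ f_n`. Since left annihilators of intersections and sums are known, the
transposition exchanges the layers `L_w = {x ∈ K_(w+1), x K_w = 0}` and `L_(2d-w)`. The layers are
two-sided ideals, in particular stable under conjugation by the `ρ g`, they annihilate each other in
one order, and the averages over `G` of the conjugates of `z_(w+1) - z_w` are elements of `L_w` with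
sum `1` which commute with `G`. In the commutant of `G` they are deformed to orthogonal idempotents
compatible with the transposition, removing the outermost pairs one after the other.
-/

set_option autoImplicit false

open CategoryTheory AlgebraicGeometry

universe u v w

namespace Pool.Agent.Results.MP_8a7054_ag.EquivariantSelfDual

open Pool.Agent.H914 Pool.Agent.W492.BB Pool.Agent.W550.Corr Pool.Agent.TH133
  Pool.Agent.X308.S

/-- The variety `X` has, for every finite group represented by orthogonal self-correspondences, a
self-dual Chow-Kunneth decomposition without morphisms raising the weight which commutes with the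
group. -/
def HasEquivariantSelfDual {k : Type u} [Field k] {𝒱 : VarClass k}
    {C : TheoryData.{u, v, 0} 𝒱 ℚ} {K : Type w} [Field K] (H : WeilTheoryData.{u, v, w} C K)
    (X : 𝒱.Obj) : Prop :=
  ∀ (G : Type) [Group G] [Finite G] (ρ : G → C.A (X.prod X)), IsOrthogonal C ρ →
    ∃ q : ℕ → C.A (X.prod X), IsCK H X q ∧ IsSelfDual C q ∧ NoRaising C q ∧ CommutesWith C ρ q

/-- A variety with a Chow-Kunneth decomposition without morphisms raising the weight has, for every
finite group represented by orthogonal correspondences (such as the graphs of automorphisms), a
commuting self-dual decomposition; this applies to all direct summands of surfaces. -/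
theorem result {k : Type u} [Field k] {𝒱 : VarClass k} (C : TheoryData.{u, v, 0} 𝒱 ℚ)
    [IsChowProj C] {K : Type w} [Field K] (H : WeilTheoryData.{u, v, w} C K) [IsWeilProj H]
    (X : 𝒱.Obj) :
    ((∃ π : ℕ → C.A (X.prod X), IsCK H X π ∧ NoRaising C π) → HasEquivariantSelfDual H X) ∧
    (SurfaceProperties H → dg C X ∈ throughSurfaces C X → HasEquivariantSelfDual H X) ∧
    ∀ (G : Type) [Group G] (a : G →* Aut X), IsOrthogonal C (fun g => C.graph (a g).hom) := by
  refine ⟨?_, fun hS hX => ?_, fun G _ a => isOrthogonal_graph a⟩
  · rintro ⟨π, h1, h2⟩ G _ _ ρ hρ
    exact exists_equivariant_CK h1 h2 hρ
  · intro G _ _ ρ hρ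
    obtain ⟨q, h1, h2, h3, h4⟩ := exists_equivariant_surf hS hX hρ
    exact ⟨q, h1, h2, noRaising_of_wt hS h4, h3⟩

end Pool.Agent.Results.MP_8a7054_ag.EquivariantSelfDual
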